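import Pool.Agent.U882.RS.Rate2

/-!
# `Ω`-stable diffeomorphisms: points with superexponentially fast recurrence have dimension zero

`DiffM n N r` is `Diff^r(N)`, `V n` is `ℝⁿ` (`Pool/Agent/H718R2/G0.lean`), `OmegaStable`:
`Ω`-stability (`Pool/Agent/TH80/OMS/Defs.lean`). `ChartLip n N`: the distance of `N` is compatible with
the smooth structure (good charts are bi-Lipschitz near their centres, for instance a Riemannian
distance; `Pool/Agent/Y368/CL/Met.lean`). `dimH` is the Hausdorff dimension (Mathlib).

For diffeomorphisms which satisfy Axiom A and have no cycles all this follows from shadowing and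
hyperbolicity. It is false for general diffeomorphisms: for a rotation of a torus by a Liouville vector
all points have arbitrarily fast returns. The bound for the number of the fixed points of `F^m` in the
first part is not new (diffeomorphisms with such a bound are dense, by Artin and Mazur, and the number
is constant near `F`); it is used with the periodic shadowing `MP_4a0782_an.PeriodicShadowing`.
-/

set_option autoImplicit false

open scoped Manifold ContDiff Topology
open Filter Metric MeasureTheory

universe u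

namespace Pool.Agent.Results.MP_814647_an.RecurrenceRates

open Pool.Agent.H718R2.G Pool.Agent.TH80.OMS Pool.Agent.Y368.CL

/-- `x` lies on a closed pseudo-orbit of `F` of length `m` with jumps `≤ δ`. For instance this holds if
`dist (F^m(x)) x ≤ δ`. -/
def OnPseudoCycle {N : Type u} [MetricSpace N] (F : N → N) (m : ℕ) (δ : ℝ) (x : N) : Prop :=
  ∃ y : ℕ → N, y 0 = x ∧ y m = x ∧ ∀ i < m, dist (F (y i)) (y (i + 1)) ≤ δ

/-- The Frostman condition `μ(B(x, ρ)) ≤ K ρ^d` for all balls, for some `K`. For instance the volume of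
a Riemannian metric on `N` satisfies it with `d = n`. -/
def Frostman {N : Type u} [MetricSpace N] [MeasurableSpace N] (μ : Measure N) (d : ℝ) : Prop :=
  ∃ K : ℝ, ∀ (x : N) (ρ : ℝ), 0 < ρ → μ (closedBall x ρ) ≤ ENNReal.ofReal (K * ρ ^ d)

/-- Let `N` be a closed manifold, `2 ≤ r ≤ ∞`, and let `F ∈ Diff^r(N)` be `Ω`-stable. There is a `C > 0`
such that:
1. for each `m ≥ 1` there are at most `exp(C m)` points `p` with `F^m(p) = p` such that all points which
   lie on a closed pseudo-orbit of length `m` with jumps at most `δ ≤ exp(- C m)` have a distance at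
   most `exp(C m) δ` from one of them;
2. the set of the points `x` which, for infinitely many `m`, lie on a closed pseudo-orbit of length `m`
   with jumps at most `exp(- a m)`, for instance because `dist (F^m(x)) x ≤ exp(- a m)`, has a Hausdorff
   dimension at most `C / a`, for all `a ≥ C`;
3. the set of the points for which this is the case for all `a` has the Hausdorff dimension zero;
4. if `μ` is a Borel measure (invariant or not, for instance the volume) with `μ(B(x, ρ)) ≤ K ρ^d` for
   all balls, `d > 0`, then for `μ`-almost all `x` and all small `ρ > 0` the ball with the centre `x` and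
   the radius `ρ` is disjoint from its images under `F^m` for all `1 ≤ m ≤ (d / (C (1 + d))) log(1/ρ)`. -/
theorem result {n : ℕ} {N : Type u} [MetricSpace N] [CompactSpace N] [MeasurableSpace N]
    [BorelSpace N] [ChartedSpace (V n) N] [IsManifold (𝓡 n) ∞ N] (hN : ChartLip n N) (r : ℕ∞)
    (hr : 2 ≤ r) (F : DiffM n N r) (hF : OmegaStable n N r F) :
    ∃ C : ℝ, 0 < C ∧
      (∀ m : ℕ, 1 ≤ m → ∃ T : Finset N, (∀ p ∈ T, F^[m] p = p) ∧
        (T.card : ℝ) ≤ Real.exp (C * m) ∧ ∀ (δ : ℝ) (x : N), δ ≤ Real.exp (-(C * m)) →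
          OnPseudoCycle F m δ x → ∃ p ∈ T, dist x p ≤ Real.exp (C * m) * δ) ∧
      (∀ a : ℝ, C ≤ a →
        dimH {x : N | ∃ᶠ m : ℕ in atTop, OnPseudoCycle F m (Real.exp (-(a * m))) x} ≤
          ENNReal.ofReal (C / a)) ∧
      dimH {x : N | ∀ a : ℝ, ∃ᶠ m : ℕ in atTop, OnPseudoCycle F m (Real.exp (-(a * m))) x} = 0 ∧
      ∀ (μ : Measure N) (d : ℝ), 0 < d → Frostman μ d →
        ∀ᵐ x ∂μ, ∃ r₀ : ℝ, 0 < r₀ ∧ ∀ ρ : ℝ, 0 < ρ → ρ < r₀ → ∀ m : ℕ, 1 ≤ m →
          m ≤ d / (C * (1 + d)) * Real.log (1 / ρ) →
          Disjoint (F^[m] '' closedBall x ρ) (closedBall x ρ) := by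
  obtain ⟨C, hC, h1, h2, h3⟩ := Pool.Agent.U882.RS.rates hr hN F hF
  refine ⟨C, hC, h1, h2, ?_, ?_⟩
  · refine le_antisymm (ENNReal.le_of_forall_pos_le_add fun ε hε _ => ?_) zero_le
    rw [zero_add]
    have hεR : (0 : ℝ) < ε := by exact_mod_cast hε
    have h4 : dimH {x : N | ∀ a : ℝ, ∃ᶠ m : ℕ in atTop,
        OnPseudoCycle F m (Real.exp (-(a * m))) x} ≤ ENNReal.ofReal (C / max C (C / ε)) :=
      (dimH_mono (fun x hx => by
        rw [Set.mem_ofPred_eq] at hx ⊢
        exact hx _)).trans (h2 _ (le_max_left _ _))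
    refine h4.trans ?_
    rw [← ENNReal.ofReal_coe_nnreal]
    apply ENNReal.ofReal_le_ofReal
    rw [div_le_iff₀ (lt_of_lt_of_le hC (le_max_left _ _))]
    calc C = ε * (C / ε) := by field_simp
      _ ≤ ε * max C (C / ε) := mul_le_mul_of_nonneg_left (le_max_right _ _) hεR.le
  · rintro μ d hd ⟨K, hK⟩
    refine h3 μ (max K 0) d (le_max_right _ _) hd fun x ρ hρ => (hK x ρ hρ).trans ?_
    apply ENNReal.ofReal_le_ofReal
    exact mul_le_mul_of_nonneg_right (le_max_left _ _) (by positivity)

end Pool.Agent.Results.MP_814647_an.RecurrenceRates
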