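import Pool.Agent.U882.RS.Main4

/-!
# `Ω`-stable diffeomorphisms: covering numbers of the invariant sets

`DiffM n N r` is `Diff^r(N)` with its `C^r` topology, `V n` is `ℝⁿ` (`Pool/Agent/H718R2/G0.lean`);
`OmegaStable`, `Omega F`: `Ω`-stability, the nonwandering set (`Pool/Agent/TH80/OMS/Defs.lean`); `Per F`:
the periodic points (`SymDefs.lean`); `FiniteNoCycle F`: `Ω(F)` is finite and there are no cycles
(`CycDefs.lean`). `ChartLip n N`: the distance of `N` is compatible with the smooth structure (good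
charts are bi-Lipschitz near their centres, for instance a Riemannian distance;
`Pool/Agent/Y368/CL/Met.lean`).

`CovBy K s ε` (`Pool/Agent/U882/RS/Esc.lean`): the set `K` is covered by `s` balls of radius `ε`.
-/

set_option autoImplicit false

open scoped Manifold ContDiff Topology
open Set

universe u

namespace Pool.Agent.Results.MP_814647_an.Resolution

open Pool.Agent.H718R2.G Pool.Agent.TH80.OMS Pool.Agent.Y368.CL Pool.Agent.U882.RS

/-- The recurrent points of `F`: every neighbourhood of `x` contains some `F^k(x)`, `k ≥ 1`. -/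
def Rec {N : Type u} [TopologicalSpace N] (F : N → N) : Set N :=
  {x | ∀ W ∈ 𝓝 x, ∃ k : ℕ, 1 ≤ k ∧ F^[k] x ∈ W}

/-- `p` is a hyperbolic periodic point of `F`: `F^m(p) = p` for some `m ≥ 1`, and for every such `m`
and every chart `ψ` at `p` no eigenvalue of the derivative `D` of `F^m` at `p` has modulus one. -/
def IsHyperbolicPer (n : ℕ) {N : Type u} [TopologicalSpace N] [ChartedSpace (V n) N]
    (F : N → N) (p : N) : Prop :=
  p ∈ Per F ∧ ∀ m : ℕ, 1 ≤ m → F^[m] p = p → ∀ ψ ∈ IsManifold.maximalAtlas (𝓡 n) ∞ N,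
    p ∈ ψ.source → ∃ D : V n →L[ℝ] V n, HasFDerivAt (fun v => ψ (F^[m] (ψ.symm v))) D (ψ p) ∧
      ∀ μ : ℂ, ((LinearMap.charpoly (D : V n →ₗ[ℝ] V n)).map (algebraMap ℝ ℂ)).IsRoot μ → ‖μ‖ ≠ 1

/-- `F` is in `U₃`, with finite `Ω(F)`: `Ω(F)` is finite, consists of hyperbolic periodic points, and
there are no cycles. -/
def FiniteU3 (n : ℕ) {N : Type u} [TopologicalSpace N] [ChartedSpace (V n) N] {r : ℕ∞}
    (F : DiffM n N r) : Prop :=
  FiniteNoCycle F ∧ ∀ p ∈ Omega F, IsHyperbolicPer n F p

/-- Let `N` be a closed manifold, `2 ≤ r ≤ ∞`, and let `F ∈ Diff^r(N)` be `Ω`-stable. There is a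
constant `C > 0` such that:
(1) every invariant set `K`, `F(K) = K`, which is covered by `s` balls of a radius less than
`exp(- C s)` has at most `s` points;
(2) so the covering numbers of all infinite invariant sets are `N(ε) ≥ (1/C) log (1/ε)`, for all `ε`;
(3) if for a single `s` the recurrent points of `F` are covered by `s` balls of a radius less than
`exp(- C s)`, then `F` satisfies Axiom A and has no cycles, and `Ω(F)` is finite.
(This is what Axiom A and no cycles give for all invariant sets, and (2) is sharp up to the constant: a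
transverse homoclinic orbit and its limit form an invariant set with `N(ε) ≤ C' log (1/ε)`.) -/
theorem result {n : ℕ} {N : Type u} [MetricSpace N] [CompactSpace N] [ChartedSpace (V n) N]
    [IsManifold (𝓡 n) ∞ N] (hN : ChartLip n N) (r : ℕ∞) (hr : 2 ≤ r)
    (F : DiffM n N r) (hF : OmegaStable n N r F) :
    ∃ C : ℝ, 0 < C ∧
      (∀ K : Set N, F '' K = K → ∀ (s : ℕ) (ε : ℝ), CovBy K s ε → ε < Real.exp (-(C * s)) →
        K.encard ≤ s) ∧
      (∀ K : Set N, F '' K = K → K.Infinite → ∀ (s : ℕ) (ε : ℝ), 0 < ε → CovBy K s ε →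
        Real.log (1 / ε) / C ≤ s) ∧
      (∀ (s : ℕ) (ε : ℝ), CovBy (Rec F) s ε → ε < Real.exp (-(C * s)) → FiniteU3 n F) := by
  obtain ⟨C, hC, h⟩ := main4 hr hN F hF
  refine ⟨C, hC, h, fun K hK hinf s ε hε hcov => ?_, fun s ε hcov hε => ?_⟩
  · by_contra hcon
    refine hinf (Set.finite_of_encard_le_coe (h K hK s ε hcov ?_))
    rw [not_le, lt_div_iff₀ hC, one_div, Real.log_inv] at hcon
    rw [← Real.log_lt_iff_lt_exp hε]
    linarith
  exact Pool.Agent.Y504.CO.Gen.stable (le_trans (by norm_num) hr) hF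
    ((Set.finite_of_encard_le_coe (h (Rec F) (rec_inv F) s ε hcov hε)).countable.mono
      Set.sdiff_subset)

end Pool.Agent.Results.MP_814647_an.Resolution
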