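import Pool.Agent.U882.RS.Per3

/-!
# `Ω`-stable diffeomorphisms: invariant sets on which an iterate is close to the identity

`DiffM n N r` is `Diff^r(N)` with its `C^r` topology, `V n` is `ℝⁿ` (`Pool/Agent/H718R2/G0.lean`);
`OmegaStable`: `Ω`-stability (`Pool/Agent/TH80/OMS/Defs.lean`). `ChartLip n N`: the distance of `N` is
compatible with the smooth structure (good charts are bi-Lipschitz near their centres, for instance a
Riemannian distance; `Pool/Agent/Y368/CL/Met.lean`).
-/

set_option autoImplicit false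

open scoped Manifold ContDiff Topology
open Set

universe u

namespace Pool.Agent.Results.MP_814647_an.RigidSets

open Pool.Agent.H718R2.G Pool.Agent.TH80.OMS Pool.Agent.Y368.CL

/-- `F^m` moves all points of `K` by at most `δ`. -/
def MovesLe {N : Type u} [MetricSpace N] (F : N → N) (m : ℕ) (K : Set N) (δ : ℝ) : Prop :=
  ∀ x ∈ K, dist (F^[m] x) x ≤ δ

/-- `K` is the union of sets `P 0, P 1, …, P (m - 1)` of diameter at most `δ` (not necessarily
disjoint), which `F` maps cyclically to each other: `F(P i) ⊆ P (i + 1)`, `F(P (m - 1)) ⊆ P 0`. -/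
def Cyclic {N : Type u} [MetricSpace N] (F : N → N) (m : ℕ) (K : Set N) (δ : ℝ) : Prop :=
  ∃ P : ZMod m → Set N, K = ⋃ i, P i ∧ (∀ i, MapsTo F (P i) (P (i + 1))) ∧
    ∀ i, ∀ x ∈ P i, ∀ y ∈ P i, dist x y ≤ δ

/-- Let `N` be a closed manifold, `2 ≤ r ≤ ∞`, and let `F ∈ Diff^r(N)` be `Ω`-stable. There is a
constant `C > 0` such that for all `m ≥ 1`:
(1) if `F^m(K) = K` (for instance, if `K` is the two-sided `F^m`-orbit of a point) and `F^m` moves all
points of `K` by at most `exp(- C m)`, then `F^m(x) = x` for all `x ∈ K`, and `K` is finite;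
(2) if `F(K) = K` and `K` is the union of `m` cyclically permuted sets of diameter at most `exp(- C m)`,
then `K` consists of periodic points, and is finite. So no infinite invariant set (no odometer, no
minimal set) of `F` is approximated by periodic motions faster than exponentially in the period. -/
theorem result {n : ℕ} {N : Type u} [MetricSpace N] [CompactSpace N] [ChartedSpace (V n) N]
    [IsManifold (𝓡 n) ∞ N] (hN : ChartLip n N) (r : ℕ∞) (hr : 2 ≤ r)
    (F : DiffM n N r) (hF : OmegaStable n N r F) :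
    ∃ C : ℝ, 0 < C ∧ ∀ (m : ℕ) (K : Set N), 1 ≤ m →
      (F^[m] '' K = K → MovesLe F m K (Real.exp (-(C * m))) → (∀ x ∈ K, F^[m] x = x) ∧ K.Finite) ∧
      (F '' K = K → Cyclic F m K (Real.exp (-(C * m))) → (∀ x ∈ K, F^[m] x = x) ∧ K.Finite) := by
  obtain ⟨C, hC, h⟩ := Pool.Agent.U882.RS.rigid_finite hr hN F hF
  refine ⟨C, hC, fun m K hm => ⟨fun hK hmov => h m K hm hK hmov, fun hK hcyc => ?_⟩⟩
  obtain ⟨P, hKP, hP, hd⟩ := hcyc
  have himg : ∀ l : ℕ, F^[l] '' K = K := by
    intro l
    induction l with
    | zero => rw [Function.iterate_zero, image_id]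
    | succ l ih => rw [Function.iterate_succ, image_comp, hK, ih]
  refine h m K hm (himg m) fun x hx => ?_
  rw [hKP] at hx
  obtain ⟨i, hi⟩ := mem_iUnion.1 hx
  have hit : ∀ l : ℕ, F^[l] x ∈ P (i + l) := by
    intro l
    induction l with
    | zero => rw [Nat.cast_zero, add_zero]; exact hi
    | succ l ih =>
      rw [Function.iterate_succ_apply', Nat.cast_succ, ← add_assoc]
      exact hP _ ih
  have h1 := hit m
  rw [ZMod.natCast_self, add_zero] at h1
  exact hd i _ h1 _ hi

end Pool.Agent.Results.MP_814647_an.RigidSets
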