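import Pool.Agent.U882.EC.Stab

/-!
# `Ω`-stable diffeomorphisms: the invariant measures away from the periodic points

`DiffM n N r` is `Diff^r(N)` with its `C^r` topology, `V n` is `ℝⁿ` (`Pool/Agent/H718R2/G0.lean`).
`OmegaStable`, `Omega F`, `Per F`: `Ω`-stability, the nonwandering set, the set of the periodic points
(`Pool/Agent/TH80/OMS/Defs.lean`, `SymDefs.lean`). `GoodChart n N χ z`: `χ` is a chart of the smooth structure
of `N` with `χ z = 0` whose target contains the closed unit ball (`Pool/Agent/W564/SC/Defs.lean`).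

`Bal χ R`: the ball `‖χ u‖ < R` in the domain of the chart; `BalAt χ x R`: the ball `‖χ u - χ x‖ < R`.
`Adm k p`: `p > 0` and `2^(-p) + 3^(-p) + ⋯ + (k+1)^(-p) ≤ 1`; `AdmUpTo r p`: `Adm k p` for all finite
`k ≤ r`. The following notions are in `Pool/Agent/U882/EC/Defs.lean` and `Stab.lean`.

* `LogNull p S χ`: near the centre of the chart `S` has zero Hausdorff measure for the gauge
  `(log 1/t)^(-1/p)`.
* `MeasureLaw F K χ k ρ`: for all exponents `p` with `Adm k p` there is a `C`, such that all invariant
  probability measures `μ` of `F` with `μ(Kᶜ) = 0` satisfy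
  `log (1/(2R)) μ(B(x,R))^p ≤ C (1 + log (1/δ)) μ(B(x,2δ))^p` for all `x` in `Bal χ ρ` and
  `0 < R ≤ δ ≤ ρ`.
* `DenseOrbits F K`: all forward orbits of points of `K` are dense in `K`.
* `SparseVisits F K χ`: some neighbourhood of the centre of `χ` is for every `ε > 0` visited by all orbits
  in `K` at most `E + ε m` times up to the time `m`, where `E` depends only on `ε`.
-/

set_option autoImplicit false

open scoped Manifold ContDiff Topology
open Set MeasureTheory

universe u

namespace Pool.Agent.Results.MP_814647_an.StableMeasures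

open Pool.Agent.H718R2.G Pool.Agent.TH80.OMS Pool.Agent.W564.SC Pool.Agent.U882.FW Pool.Agent.U882.EC

/-- `μ` is an invariant probability measure of `F` which is carried by `S`. -/
def InvOn {X : Type*} [MeasurableSpace X] (F : X → X) (μ : Measure X) (S : Set X) : Prop :=
  IsProbabilityMeasure μ ∧ MeasurePreserving F μ μ ∧ μ Sᶜ = 0

/-- The law for the measures of small balls holds near the centre of `χ`, for some finite order
`2 ≤ k ≤ r`. -/
def Regular {n : ℕ} {N : Type u} [TopologicalSpace N] [MeasurableSpace N] (r : ℕ∞) (F : N → N)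
    (χ : OpenPartialHomeomorph N (V n)) : Prop :=
  ∃ (k : ℕ) (ρ : ℝ), 2 ≤ k ∧ (k : ℕ∞) ≤ r ∧ 0 < ρ ∧ MeasureLaw F univ χ k ρ

/-- If an invariant probability measure is carried by a set which is null near a point `z` of its
support, then `z` is a limit of periodic points. -/
def NullSupports {n : ℕ} {N : Type u} [TopologicalSpace N] [ChartedSpace (V n) N]
    [MeasurableSpace N] (F : N → N) (p : ℝ) : Prop :=
  ∀ (μ : Measure N) (S : Set N), InvOn F μ S → ∀ z ∈ μ.support,
    ∀ χ, GoodChart n N χ z → LogNull p S χ → z ∈ closure (Per F)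

/-- Minimal sets which are null near one of their points lie in `closure(Per(F))`. -/
def NullMinimal {n : ℕ} {N : Type u} [TopologicalSpace N] [ChartedSpace (V n) N]
    (F : N → N) (p : ℝ) : Prop :=
  ∀ K : Set N, IsClosed K → MapsTo F K K → DenseOrbits F K → ∀ z ∈ K,
    ∀ χ, GoodChart n N χ z → LogNull p K χ → K ⊆ closure (Per F)

/-- If `z ∉ closure(Per(F))` and the closed set `K`, `F(K) ⊆ K`, is null near `z`, then the orbits in `K`
visit some neighbourhood of `z` with density zero, uniformly. -/
def NullSparse {n : ℕ} {N : Type u} [TopologicalSpace N] [ChartedSpace (V n) N]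
    (F : N → N) (p : ℝ) : Prop :=
  ∀ z, z ∉ closure (Per F) → ∀ χ, GoodChart n N χ z → ∀ K : Set N, IsClosed K →
    MapsTo F K K → LogNull p K χ → SparseVisits F K χ

/-- Let `N` be a closed manifold, `2 ≤ r ≤ ∞`, and let `F ∈ Diff^r(N)` be `Ω`-stable; let `p` be an
exponent which is admissible for all finite orders `≤ r`, for instance `p = 7/4` (any `r`, `r = ∞`
included) or `p = 4/5` (`r = 2`).
(1) Near every point `z ∉ closure(Per(F))` all invariant probability measures of `F` satisfy, with
uniform constants, `μ(B(x,R)) ≤ (C (1 + log(1/δ)) / log(1/(2R)))^(1/p) μ(B(x,2δ))`.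
(2) If an invariant probability measure is carried by a set which has near `z` zero Hausdorff measure
for the gauge `(log 1/t)^(-1/p)`, and `z` lies in its support, then `z` is a limit of periodic points.
(3) Minimal sets which are null in this sense near one of their points lie in `closure(Per(F))`.
(4) If `z ∉ closure(Per(F))` and the closed set `K`, `F(K) ⊆ K`, is null near `z`, then all orbits in `K`
visit a neighbourhood of `z` with density zero, uniformly. -/
theorem result {n : ℕ} {N : Type u} [TopologicalSpace N] [T2Space N] [CompactSpace N]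
    [ChartedSpace (V n) N] [IsManifold (𝓡 n) ∞ N] [MeasurableSpace N] [BorelSpace N] (r : ℕ∞)
    (hr : 2 ≤ r) (F : DiffM n N r) (hF : OmegaStable n N r F) :
    (∀ z, z ∉ closure (Per F) → ∀ χ, GoodChart n N χ z → Regular r F χ) ∧
    (∀ p, AdmUpTo r p → NullSupports (n := n) F p ∧ NullMinimal (n := n) F p ∧
      NullSparse (n := n) F p) ∧
    AdmUpTo r (7 / 4) ∧ AdmUpTo 2 (4 / 5) := by
  refine ⟨fun z hz χ hχ => stable_law hr hF hz hχ, fun p hp => ⟨fun μ S hμ z hz χ hχ hS => ?_,
    fun K hK hFK hD z hz χ hχ hS => ?_, fun z hz χ hχ K hK hFK hS => ?_⟩, admUpTo_all r,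
    admUpTo_two⟩
  · exact stable_support hr hp hF μ hμ.1 hμ.2.1 S hμ.2.2 z hz χ hχ hS
  · exact stable_minimal hr hp hF K hK hFK hD z hz χ hχ hS
  · exact stable_sparse hr hp hF hz hχ K hK hFK hS

end Pool.Agent.Results.MP_814647_an.StableMeasures
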